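import Pool.Agent.Lib.MP_784f1f_an.Final

set_option autoImplicit false
open MeasureTheory

namespace Pool.Agent.Results.MP_784f1f_an.NonUniqueness

open Pool.Agent.Lib.MP_784f1f_an

/-- **Disproof of uniqueness.** For every `N ≥ 1` and `T > 0` there are a coefficient
`μ ∈ L^1(Q_T)` with `μ ≥ 1` and a function `Φ` of the class `X_μ`, not a.e. zero, with
`∂_t Φ + μ Δ Φ = 0` a.e. in `Q_T` and `Φ(T, ·) = 0`. -/
theorem result (N : ℕ) (hN : 1 ≤ N) (T : ℝ) (hT : 0 < T) :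
    ∃ (μ Φ Φt : ℝ × (Fin N → ℝ) → ℝ) (G : Fin N → ℝ × (Fin N → ℝ) → ℝ)
      (H : Fin N → Fin N → ℝ × (Fin N → ℝ) → ℝ),
      PeriodicX N μ ∧ Measurable μ ∧ IntegrableOn μ (QT N T) ∧ (∀ z, 1 ≤ μ z) ∧
      InX N T μ Φ Φt G H ∧
      (∀ᵐ z ∂(volume.restrict (QT N T)), Φt z + μ z * ∑ i, H i i z = 0) ∧
      (∀ x, Φ (T, x) = 0) ∧
      ¬ (∀ᵐ z ∂(volume.restrict (QT N T)), Φ z = 0) := by
  obtain ⟨n, rfl⟩ : ∃ n, N = n + 1 := ⟨N - 1, by omega⟩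
  exact main n T hT

end Pool.Agent.Results.MP_784f1f_an.NonUniqueness
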